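import Pool.Agent.Helper45.SP.GoalsF
import Pool.Agent.Helper31.Lin.Lalg
import Pool.Agent.Helper19.Lin.IDT
import Pool.Agent.Helper94.Lin.Dlim

/-! Packet LBRL: brackets of generators are generators. -/

open Complex Metric Set Filter Topology
open scoped ContDiff ComplexConjugate

namespace Pool.Agent.Helper97.SP

open Pool.Agent.Helper95.Lin Pool.Agent.Helper10.SP Pool.Agent.Helper45.SP
open Pool.Agent.Helper31.Lin (HF)

variable {b : ℕ} {z₀ : Cn b} {r : ℝ} {A : Set (Tri b)}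

/-- a field that is continuous on the ball is bounded on smaller balls. -/
theorem bdd_small {V : Cn b → Cn b} (hV : DifferentiableOn ℂ V (ball z₀ r)) {ρ : ℝ} (hρ : ρ < r) :
    ∃ B : ℝ, 0 ≤ B ∧ ∀ z ∈ ball z₀ ρ, ‖V z‖ ≤ B := by
  have hsub : closedBall z₀ ρ ⊆ ball z₀ r := closedBall_subset_ball hρ
  obtain ⟨B, hB⟩ := (isCompact_closedBall z₀ ρ).exists_bound_of_continuousOn
    (hV.continuousOn.mono hsub)
  exact ⟨max B 0, le_max_right _ _, fun z hz =>
    (hB z (ball_subset_closedBall hz)).trans (le_max_left _ _)⟩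

theorem br_approx (hLADD : S_LADD') (hLAD : S_LAD) (hLADAPX : S_LADAPX) (hA : LGrp z₀ r A)
    {V W : Cn b → Cn b} (hV : InLL z₀ r A V) (hW : InLL z₀ r A W) {ε : ℝ} (hε : 0 < ε) :
    ∃ U, InLL z₀ r A U ∧ ∀ z ∈ ball z₀ (r / 4), ‖U z - brV V W z‖ ≤ ε := by
  have hr := hA.pos
  obtain ⟨ε', hε', σ₀, hσ₀, h1⟩ := hLADAPX z₀ r hr V W hV.1 hW.1 (r / 4) (by linarith) ε hε
  obtain ⟨η, hη, h2⟩ := hLAD hA
  obtain ⟨σ₁, hσ₁, h3⟩ := hV.2.2 (r / 2) (by linarith) ε' hε'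
  obtain ⟨B, hB0, hB⟩ := bdd_small hV.1 (show r / 2 < r by linarith)
  obtain ⟨hL0, hL1, hL2⟩ := hLADD hA
  set σ : ℝ := min (min σ₀ σ₁) (η / (ε' + B + 1)) / 2 with hσ
  have hden : 0 < ε' + B + 1 := by positivity
  have hm : 0 < min (min σ₀ σ₁) (η / (ε' + B + 1)) := lt_min (lt_min hσ₀ hσ₁) (by positivity)
  have hσ0 : 0 < σ := by positivity
  have hσlt : σ < min (min σ₀ σ₁) (η / (ε' + B + 1)) := by linarith
  have hσa : σ < σ₀ := hσlt.trans_le ((min_le_left _ _).trans (min_le_left _ _))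
  have hσb : σ < σ₁ := hσlt.trans_le ((min_le_left _ _).trans (min_le_right _ _))
  have hσc : σ * (ε' + B + 1) < η := by
    have := hσlt.trans_le (min_le_right _ _)
    rwa [lt_div_iff₀ hden] at this
  obtain ⟨t, ht, h4⟩ := h3 σ hσ0 hσb
  have hnear : Near z₀ (r / 2) t.g η := by
    intro z hz
    have h5 := h4 z hz
    have h6 := hB z hz
    have h7 : t.g z - z = (t.g z - z - σ • V z) + σ • V z := by abel
    rw [h7]
    calc ‖(t.g z - z - σ • V z) + σ • V z‖ ≤ ‖t.g z - z - σ • V z‖ + ‖σ • V z‖ := norm_add_le _ _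
      _ ≤ ε' * σ + σ * B := by
          rw [norm_smul, Real.norm_of_nonneg hσ0.le]
          exact add_le_add h5 (mul_le_mul_of_nonneg_left h6 hσ0.le)
      _ ≤ η := by nlinarith
  obtain ⟨W', hW', hAd⟩ := h2 t ht hnear W hW
  have h5 := h1 σ hσ0 hσa t.g (hA.g_holo t ht) h4 W' hAd
  refine ⟨(-(1 / σ)) • (W' + (-1 : ℝ) • W), hL2 _ (hL1 _ _ hW' (hL2 _ hW _)) _, fun z hz => ?_⟩
  have h6 := h5 z hz
  have h7 : ((-(1 / σ)) • (W' + (-1 : ℝ) • W)) z - brV V W z =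
      (-(1 / σ)) • (W' z - W z + σ • brV V W z) := by
    simp only [Pi.smul_apply, Pi.add_apply]
    rw [smul_add _ (W' z - W z), smul_smul]
    have : -(1 / σ) * σ = -1 := by field_simp
    rw [this, neg_one_smul, neg_one_smul, ← sub_eq_add_neg, ← sub_eq_add_neg]
  rw [h7, norm_smul, norm_neg, Real.norm_of_nonneg (by positivity), one_div,
    inv_mul_le_iff₀ hσ0]
  linarith

theorem LBRL (hLADD : S_LADD') (hLLIM : S_LLIM') (hLNCMP : S_LNCMP) (hLAD : S_LAD)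
    (hLADAPX : S_LADAPX) : S_LBRL := by
  intro b z₀ r A hA V W hV hW
  have hr := hA.pos
  obtain ⟨hL0, hL1, hL2⟩ := hLADD hA
  have hU : ∀ n : ℕ, ∃ U, InLL z₀ r A U ∧ ∀ z ∈ ball z₀ (r / 4), ‖U z - brV V W z‖ ≤
      1 / ((n : ℝ) + 1) := fun n => br_approx hLADD hLAD hLADAPX hA hV hW (by positivity)
  choose U hUL hUap using hU
  have hCau : ∀ ρ < r, ∃ C : ℝ, 0 ≤ C ∧ ∀ n m : ℕ, ∀ z ∈ ball z₀ ρ,
      ‖U n z - U m z‖ ≤ C * (1 / ((n : ℝ) + 1) + 1 / ((m : ℝ) + 1)) := by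
    intro ρ hρ
    obtain ⟨C, hC, h1⟩ := hLNCMP hA z₀ (r / 4) (by linarith) (ball_subset_ball (by linarith)) ρ hρ
    refine ⟨C, hC, fun n m z hz => ?_⟩
    have h2 := h1 (U n + (-1 : ℝ) • U m) (hL1 _ _ (hUL n) (hL2 _ (hUL m) _))
      (1 / ((n : ℝ) + 1) + 1 / ((m : ℝ) + 1)) (fun z hz => ?_) z hz
    · have e : (U n + (-1 : ℝ) • U m) z = U n z - U m z := by
        simp only [Pi.add_apply, Pi.smul_apply]
        rw [neg_one_smul, ← sub_eq_add_neg]
      rwa [e] at h2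
    · have e : (U n + (-1 : ℝ) • U m) z = (U n z - brV V W z) - (U m z - brV V W z) := by
        simp only [Pi.add_apply, Pi.smul_apply]
        rw [neg_one_smul]
        abel
      rw [e]
      exact (norm_sub_le _ _).trans (add_le_add (hUap n z hz) (hUap m z hz))
  have hlim0 : Tendsto (fun n : ℕ => 1 / ((n : ℝ) + 1)) atTop (𝓝 0) :=
    tendsto_one_div_add_atTop_nhds_zero_nat
  have hpt : ∀ z ∈ ball z₀ r, ∃ y, Tendsto (fun n => U n z) atTop (𝓝 y) := by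
    intro z hz
    obtain ⟨ρ, hρ1, hρ2⟩ := exists_between (mem_ball.1 hz)
    obtain ⟨C, hC, h1⟩ := hCau ρ hρ2
    apply cauchySeq_tendsto_of_complete
    rw [Metric.cauchySeq_iff']
    intro ε hε
    have h2 : ∀ᶠ n : ℕ in atTop, C * (2 * (1 / ((n : ℝ) + 1))) < ε := by
      have : Tendsto (fun n : ℕ => C * (2 * (1 / ((n : ℝ) + 1)))) atTop (𝓝 (C * (2 * 0))) :=
        (hlim0.const_mul 2).const_mul C
      rw [mul_zero, mul_zero] at this
      exact this.eventually_lt_const hε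
    obtain ⟨N, hN⟩ := h2.exists
    refine ⟨N, fun n hn => ?_⟩
    rw [dist_eq_norm]
    have h3 := h1 n N z (mem_ball.2 hρ1)
    have h4 : 1 / ((n : ℝ) + 1) ≤ 1 / ((N : ℝ) + 1) := by
      apply one_div_le_one_div_of_le (by positivity)
      have : (N : ℝ) ≤ n := by exact_mod_cast hn
      linarith
    calc ‖U n z - U N z‖ ≤ C * (1 / ((n : ℝ) + 1) + 1 / ((N : ℝ) + 1)) := h3
      _ ≤ C * (2 * (1 / ((N : ℝ) + 1))) := by
          apply mul_le_mul_of_nonneg_left _ hC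
          linarith
      _ < ε := hN
  choose! F hF using hpt
  have hunif : ∀ ρ < r, ∃ C : ℝ, 0 ≤ C ∧ ∀ n : ℕ, ∀ z ∈ ball z₀ ρ,
      ‖U n z - F z‖ ≤ C * (1 / ((n : ℝ) + 1)) := by
    intro ρ hρ
    obtain ⟨C, hC, h1⟩ := hCau ρ hρ
    refine ⟨C, hC, fun n z hz => ?_⟩
    have hz' : z ∈ ball z₀ r := ball_subset_ball hρ.le hz
    have h2 : Tendsto (fun m => ‖U n z - U m z‖) atTop (𝓝 ‖U n z - F z‖) :=
      (tendsto_const_nhds.sub (hF z hz')).norm
    have h3 : Tendsto (fun m : ℕ => C * (1 / ((n : ℝ) + 1) + 1 / ((m : ℝ) + 1))) atTop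
        (𝓝 (C * (1 / ((n : ℝ) + 1) + 0))) := (tendsto_const_nhds.add hlim0).const_mul C
    rw [add_zero] at h3
    exact le_of_tendsto_of_tendsto' h2 h3 (fun m => h1 n m z hz)
  have hcomp : ∀ K ⊆ ball z₀ r, IsCompact K → ∃ ρ < r, K ⊆ ball z₀ ρ := by
    intro K hK hKc
    rcases K.eq_empty_or_nonempty with rfl | hne
    · exact ⟨r / 2, by linarith, empty_subset _⟩
    · obtain ⟨x, hx, hmax⟩ := hKc.exists_isMaxOn hne
        (f := fun y : Cn b => dist y z₀) (continuous_id.dist continuous_const).continuousOn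
      obtain ⟨ρ, hρ1, hρ2⟩ := exists_between (mem_ball.1 (hK hx))
      refine ⟨ρ, hρ2, fun y hy => mem_ball.2 ?_⟩
      have : dist y z₀ ≤ dist x z₀ := hmax hy
      linarith
  have hFd : DifferentiableOn ℂ F (ball z₀ r) := by
    refine (Pool.Agent.Helper94.Lin.dlim (ball z₀ r) isOpen_ball U F (fun k => (hUL k).1)
      (fun K hK hKc ε hε => ?_)).1
    obtain ⟨ρ, hρ, hKρ⟩ := hcomp K hK hKc
    obtain ⟨C, hC, h1⟩ := hunif ρ hρ
    have h2 : Tendsto (fun n : ℕ => C * (1 / ((n : ℝ) + 1))) atTop (𝓝 (C * 0)) :=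
      hlim0.const_mul C
    rw [mul_zero] at h2
    filter_upwards [h2.eventually_lt_const hε] with n hn z hz
    exact (h1 n z (hKρ hz)).trans hn.le
  have hHV : HF (ball z₀ r) V := ⟨hV.1, hV.2.1⟩
  have hHW : HF (ball z₀ r) W := ⟨hW.1, hW.2.1⟩
  have hHB := HF.br isOpen_ball hHV hHW
  have hFB0 : ∀ z ∈ ball z₀ (r / 4), F z - brV V W z = 0 := by
    intro z hz
    have hz' : z ∈ ball z₀ r := ball_subset_ball (by linarith) hz
    have h2 : Tendsto (fun m => ‖U m z - brV V W z‖) atTop (𝓝 ‖F z - brV V W z‖) :=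
      ((hF z hz').sub tendsto_const_nhds).norm
    have h3 := le_of_tendsto_of_tendsto' h2 hlim0 (fun m => hUap m z hz)
    exact norm_le_zero_iff.1 h3
  have hFB : ∀ z ∈ ball z₀ r, F z - brV V W z = 0 := by
    apply Pool.Agent.Helper19.Lin.idt (ball z₀ r) isOpen_ball (convex_ball z₀ r).isPreconnected
      (fun z => F z - brV V W z) (hFd.sub hHB.1) z₀ (mem_ball_self hr)
    filter_upwards [ball_mem_nhds z₀ (show 0 < r / 4 by linarith)] with z hz
    exact hFB0 z hz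
  apply hLLIM hA _ hHB.1 hHB.2
  intro ρ hρ ε hε
  obtain ⟨C, hC, h1⟩ := hunif ρ hρ
  have h2 : Tendsto (fun n : ℕ => C * (1 / ((n : ℝ) + 1))) atTop (𝓝 (C * 0)) :=
    hlim0.const_mul C
  rw [mul_zero] at h2
  obtain ⟨n, hn⟩ := (h2.eventually_lt_const hε).exists
  refine ⟨U n, hUL n, fun z hz => ?_⟩
  have h3 := hFB z (ball_subset_ball hρ.le hz)
  have h4 : brV V W z = F z := (sub_eq_zero.1 h3).symm
  rw [h4]
  exact (h1 n z hz).trans hn.le

end Pool.Agent.Helper97.SP
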