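import Mathlib
import Pool.Agent.Helper45.SP.GoalsG

/-! SEQ: approximate orbits of a linear map that is not nilpotent do not reach `0`. -/

namespace Pool.Agent.Helper97.SP

open Finset Filter

section normed

variable {E : Type} [NormedAddCommGroup E] [NormedSpace ℝ E] [FiniteDimensional ℝ E]

theorem bd_lin (T : E →ₗ[ℝ] E) : ∃ C : ℝ, 0 ≤ C ∧ ∀ x, ‖T x‖ ≤ C * ‖x‖ := by
  refine ⟨‖LinearMap.toContinuousLinearMap T‖, norm_nonneg _, fun x => ?_⟩
  exact (LinearMap.toContinuousLinearMap T).le_opNorm x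

theorem seq_normed (N : E →ₗ[ℝ] E) (hN : ¬ IsNilpotent N) :
    ∃ κ > 0, ∃ x₀ : E, x₀ ≠ 0 ∧ ∀ Δ : ℕ → E, Δ 0 ≠ 0 → (∃ c : ℝ, ‖Δ 0 - c • x₀‖ ≤ κ * ‖Δ 0‖) →
    (∀ k, ‖Δ (k + 1) - N (Δ k)‖ ≤ κ * ‖Δ k‖) → ∀ k, Δ k ≠ 0 := by
  obtain ⟨d, hd, hd1⟩ := ((LinearMap.eventually_isCompl_ker_pow_range_pow (R := ℝ) (M := E) N).and
    (eventually_ge_atTop 1)).exists
  set K := LinearMap.ker (N ^ d) with hK
  set I := LinearMap.range (N ^ d) with hI
  set π : E →ₗ[ℝ] E := K.projection I hd with hπ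
  have hπk : ∀ x, (N ^ d) (π x) = 0 := fun x =>
    LinearMap.mem_ker.1 (Submodule.projection_apply_mem hd x)
  have hπ0 : ∀ x, π x = 0 ↔ x ∈ I := fun x => Submodule.projection_apply_eq_zero_iff hd
  have hπid : ∀ x, x ∈ K → π x = x := fun x hx => Submodule.projection_apply_of_mem_left hd hx
  have hsubI : ∀ x, x - π x ∈ I := by
    intro x
    rw [← hπ0, map_sub, hπid (π x) (LinearMap.mem_ker.2 (hπk x)), sub_self]
  have hcomm1 : ∀ x, (N ^ d) (N x) = N ((N ^ d) x) := by
    intro x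
    have : N ^ d * N = N * N ^ d := (Commute.refl N).pow_left d
    exact LinearMap.congr_fun this x
  have hcomm : ∀ x, π (N x) = N (π x) := by
    intro x
    have h1 : N x = N (π x) + N (x - π x) := by rw [← map_add]; congr 1; abel
    have h2 : N (π x) ∈ K := by
      rw [hK, LinearMap.mem_ker, hcomm1, hπk, map_zero]
    have h3 : N (x - π x) ∈ I := by
      obtain ⟨z, hz⟩ := LinearMap.mem_range.1 (hsubI x)
      rw [← hz, ← hcomm1]
      exact LinearMap.mem_range_self _ _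
    conv_lhs => rw [h1]
    rw [map_add, hπid _ h2, (hπ0 _).2 h3, add_zero]
  -- lower bound of `N` on the range
  obtain ⟨c, hc, hlow⟩ : ∃ c : ℝ, 0 < c ∧ ∀ z ∈ I, c * ‖z‖ ≤ ‖N z‖ := by
    have hker : LinearMap.ker (N ∘ₗ I.subtype) = ⊥ := by
      rw [LinearMap.ker_eq_bot']
      rintro ⟨z, hz⟩ h
      have h1 : N z = 0 := h
      have h2 : z ∈ K := by
        obtain ⟨e, rfl⟩ : ∃ e, d = e + 1 := ⟨d - 1, by omega⟩
        rw [hK, LinearMap.mem_ker, pow_succ, Module.End.mul_apply, h1, map_zero]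
      have h3 : z ∈ K ⊓ I := ⟨h2, hz⟩
      rw [hd.inf_eq_bot, Submodule.mem_bot] at h3
      exact Subtype.ext h3
    obtain ⟨K1, hK1, hanti⟩ := LinearMap.exists_antilipschitzWith _ hker
    have hK1' : (0 : ℝ) < (K1 : ℝ) := by exact_mod_cast hK1
    refine ⟨(K1 : ℝ)⁻¹, by positivity, fun z hz => ?_⟩
    have h1 := hanti.le_mul_dist ⟨z, hz⟩ 0
    rw [dist_zero_right, map_zero, dist_zero_right] at h1
    have h2 : ‖z‖ ≤ K1 * ‖N z‖ := h1
    rw [inv_mul_le_iff₀ hK1']
    exact h2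
  -- the norm is controlled by the two parts
  obtain ⟨C2, hC2, hup⟩ : ∃ C2 : ℝ, 0 < C2 ∧ ∀ x, ‖x‖ ≤ C2 * (‖(N ^ d) x‖ + ‖π x‖) := by
    have hker : LinearMap.ker ((N ^ d).prod π) = ⊥ := by
      rw [LinearMap.ker_eq_bot']
      intro x h
      have h1 : (N ^ d) x = 0 := congrArg Prod.fst h
      have h2 : π x = 0 := congrArg Prod.snd h
      have h3 : x ∈ K ⊓ I := ⟨LinearMap.mem_ker.2 h1, (hπ0 x).1 h2⟩
      rw [hd.inf_eq_bot, Submodule.mem_bot] at h3
      exact h3
    obtain ⟨K1, hK1, hanti⟩ := LinearMap.exists_antilipschitzWith _ hker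
    have hK1' : (0 : ℝ) < (K1 : ℝ) := by exact_mod_cast hK1
    refine ⟨K1, hK1', fun x => ?_⟩
    have h1 := hanti.le_mul_dist x 0
    rw [dist_zero_right, map_zero, dist_zero_right] at h1
    have h2 : ‖((N ^ d).prod π) x‖ ≤ ‖(N ^ d) x‖ + ‖π x‖ := by
      change ‖((N ^ d) x, π x)‖ ≤ _
      rw [Prod.norm_mk]
      exact max_le (by linarith [norm_nonneg (π x)]) (by linarith [norm_nonneg ((N ^ d) x)])
    exact h1.trans (mul_le_mul_of_nonneg_left h2 hK1'.le)
  set L : ℝ := 4 / c with hL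
  have hL0 : 0 < L := by positivity
  set p : E → ℝ := fun x => ‖(N ^ d) x‖ with hp
  set q : E → ℝ := fun x => ∑ i ∈ range d, L ^ i * ‖(N ^ i) (π x)‖ with hq
  have hq0 : ∀ x, 0 ≤ q x := fun x => Finset.sum_nonneg (fun i _ => by positivity)
  have hp0 : ∀ x, 0 ≤ p x := fun x => norm_nonneg _
  have hqπ : ∀ x, ‖π x‖ ≤ q x := by
    intro x
    have h1 := Finset.single_le_sum (f := fun i => L ^ i * ‖(N ^ i) (π x)‖)
      (fun i _ => by positivity) (Finset.mem_range.2 (show 0 < d by omega))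
    simpa using h1
  have hpadd : ∀ x y, p (x + y) ≤ p x + p y := by
    intro x y
    simp only [hp, map_add]
    exact norm_add_le _ _
  have hqadd : ∀ x y, q (x + y) ≤ q x + q y := by
    intro x y
    simp only [hq]
    rw [← Finset.sum_add_distrib]
    refine Finset.sum_le_sum (fun i _ => ?_)
    rw [map_add, map_add, ← mul_add]
    exact mul_le_mul_of_nonneg_left (norm_add_le _ _) (by positivity)
  have hpneg : ∀ x, p (-x) = p x := by
    intro x
    simp only [hp, map_neg, norm_neg]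
  have hpN : ∀ x, c * p x ≤ p (N x) := by
    intro x
    simp only [hp]
    rw [hcomm1]
    exact hlow _ (LinearMap.mem_range_self _ _)
  have hqN : ∀ x, q (N x) ≤ c / 4 * q x := by
    intro x
    set a : ℕ → ℝ := fun i => L ^ i * ‖(N ^ i) (π x)‖ with ha
    have h1 : q (N x) = c / 4 * ∑ i ∈ range d, a (i + 1) := by
      simp only [hq]
      rw [Finset.mul_sum]
      refine Finset.sum_congr rfl (fun i _ => ?_)
      rw [hcomm]
      have h2 : (N ^ i) (N (π x)) = (N ^ (i + 1)) (π x) := by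
        rw [pow_succ, Module.End.mul_apply]
      have h3 : L ^ i = c / 4 * L ^ (i + 1) := by
        rw [pow_succ, hL]
        field_simp
      rw [h2, ha]
      simp only
      rw [h3]
      ring
    have h2 : ∑ i ∈ range (d + 1), a i = ∑ i ∈ range d, a i := by
      rw [Finset.sum_range_succ]
      simp only [ha]
      rw [hπk, norm_zero, mul_zero, add_zero]
    have h3 := Finset.sum_range_succ' a d
    have h4 : 0 ≤ a 0 := by simp only [ha]; positivity
    have h5 : ∑ i ∈ range d, a (i + 1) ≤ q x := by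
      have : q x = ∑ i ∈ range d, a i := rfl
      rw [this, ← h2, h3]
      linarith
    rw [h1]
    exact mul_le_mul_of_nonneg_left h5 (by positivity)
  obtain ⟨Cp, hCp0, hCp⟩ := bd_lin (N ^ d)
  obtain ⟨Cq, hCq0, hCq⟩ : ∃ Cq : ℝ, 0 ≤ Cq ∧ ∀ x, q x ≤ Cq * ‖x‖ := by
    have h1 : ∀ i : ℕ, ∃ C : ℝ, 0 ≤ C ∧ ∀ x, ‖(N ^ i) (π x)‖ ≤ C * ‖x‖ :=
      fun i => bd_lin ((N ^ i) ∘ₗ π)
    choose C hC0 hC using h1
    refine ⟨∑ i ∈ range d, L ^ i * C i, Finset.sum_nonneg (fun i _ =>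
      mul_nonneg (by positivity) (hC0 i)), fun x => ?_⟩
    simp only [hq]
    rw [Finset.sum_mul]
    refine Finset.sum_le_sum (fun i _ => ?_)
    rw [mul_assoc]
    exact mul_le_mul_of_nonneg_left (hC i x) (by positivity)
  set C : ℝ := Cp + Cq + C2 + 1 with hC
  have hC0 : 0 < C := by positivity
  have hpC : ∀ x, p x ≤ C * ‖x‖ := fun x => (hCp x).trans
    (mul_le_mul_of_nonneg_right (by linarith) (norm_nonneg x))
  have hqC : ∀ x, q x ≤ C * ‖x‖ := fun x => (hCq x).trans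
    (mul_le_mul_of_nonneg_right (by linarith) (norm_nonneg x))
  have hnC : ∀ x, ‖x‖ ≤ C * (p x + q x) := by
    intro x
    have h1 : ‖(N ^ d) x‖ + ‖π x‖ ≤ p x + q x := by
      have := hqπ x
      simp only [hp]
      linarith
    exact (hup x).trans (mul_le_mul (by linarith) h1 (by positivity) (by positivity))
  set κ : ℝ := min 1 c / (8 * C ^ 2) with hκ
  have hm0 : 0 < min 1 c := lt_min one_pos hc
  have hκ0 : 0 < κ := by positivity
  have hκC : C * (κ * C) = min 1 c / 8 := by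
    rw [hκ]
    field_simp
  obtain ⟨x₀, hx₀I, hx₀⟩ : ∃ x₀ ∈ I, x₀ ≠ 0 := by
    by_contra hcon
    push Not at hcon
    apply hN
    refine ⟨d, ?_⟩
    ext x
    exact hcon _ (LinearMap.mem_range_self _ x)
  refine ⟨κ, hκ0, x₀, hx₀, fun Δ hΔ0 hstart hstep => ?_⟩
  -- the error terms
  have herr : ∀ x y : E, ‖y‖ ≤ κ * ‖x‖ → p y ≤ min 1 c / 8 * (p x + q x) ∧
      q y ≤ min 1 c / 8 * (p x + q x) := by
    intro x y h
    have h1 : C * ‖y‖ ≤ min 1 c / 8 * (p x + q x) := by
      calc C * ‖y‖ ≤ C * (κ * ‖x‖) := mul_le_mul_of_nonneg_left h hC0.le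
        _ ≤ C * (κ * (C * (p x + q x))) := by
            apply mul_le_mul_of_nonneg_left _ hC0.le
            exact mul_le_mul_of_nonneg_left (hnC x) hκ0.le
        _ = (C * (κ * C)) * (p x + q x) := by ring
        _ = _ := by rw [hκC]
    exact ⟨(hpC y).trans h1, (hqC y).trans h1⟩
  have hm1 : min 1 c ≤ 1 := min_le_left _ _
  have hm2 : min 1 c ≤ c := min_le_right _ _
  have key : ∀ k, q (Δ k) ≤ p (Δ k) ∧ 0 < p (Δ k) := by
    intro k
    induction k with
    | zero =>
      obtain ⟨c0, h0⟩ := hstart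
      have h1 := (herr _ _ h0).2
      have h2 : q (c0 • x₀) = 0 := by
        have : π (c0 • x₀) = 0 := (hπ0 _).2 (I.smul_mem c0 hx₀I)
        simp only [hq, this, map_zero, norm_zero, mul_zero, Finset.sum_const_zero]
      have h3 := hqadd (Δ 0 - c0 • x₀) (c0 • x₀)
      rw [sub_add_cancel, h2] at h3
      have h4 := hp0 (Δ 0)
      have h5 := hq0 (Δ 0)
      have h6 : min 1 c / 8 * (p (Δ 0) + q (Δ 0)) ≤ 1 / 8 * (p (Δ 0) + q (Δ 0)) :=
        mul_le_mul_of_nonneg_right (by linarith) (by linarith)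
      have h7 : q (Δ 0) ≤ p (Δ 0) := by linarith
      refine ⟨h7, ?_⟩
      by_contra hcon
      push Not at hcon
      have h8 := hnC (Δ 0)
      have h9 : ‖Δ 0‖ ≤ 0 := by
        have : C * (p (Δ 0) + q (Δ 0)) ≤ 0 :=
          mul_nonpos_of_nonneg_of_nonpos hC0.le (by linarith)
        linarith
      exact hΔ0 (norm_le_zero_iff.1 h9)
    | succ k ih =>
      obtain ⟨ih1, ih2⟩ := ih
      obtain ⟨e1, e2⟩ := herr _ _ (hstep k)
      set e := Δ (k + 1) - N (Δ k) with he
      have h1 : Δ (k + 1) = N (Δ k) + e := by rw [he]; abel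
      have h2 : p (N (Δ k)) ≤ p (Δ (k + 1)) + p e := by
        have h3 : N (Δ k) = Δ (k + 1) + -e := by rw [he]; abel
        calc p (N (Δ k)) = p (Δ (k + 1) + -e) := by rw [← h3]
          _ ≤ p (Δ (k + 1)) + p (-e) := hpadd _ _
          _ = _ := by rw [hpneg]
      have h3 : q (Δ (k + 1)) ≤ q (N (Δ k)) + q e := by
        rw [h1]; exact hqadd _ _
      have h4 := hpN (Δ k)
      have h5 := hqN (Δ k)
      have h6 : min 1 c / 8 * (p (Δ k) + q (Δ k)) ≤ c / 4 * p (Δ k) := by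
        calc min 1 c / 8 * (p (Δ k) + q (Δ k)) ≤ c / 8 * (p (Δ k) + p (Δ k)) := by
              apply mul_le_mul (by linarith) (by linarith) _ (by positivity)
              linarith [hq0 (Δ k)]
          _ = _ := by ring
      have h7 : c / 4 * q (Δ k) ≤ c / 4 * p (Δ k) :=
        mul_le_mul_of_nonneg_left ih1 (by positivity)
      have h8 : 0 < c * p (Δ k) := by positivity
      constructor
      · linarith
      · linarith
  intro k h0
  have := (key k).2
  rw [h0] at this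
  simp [hp] at this

end normed

theorem SEQ : Pool.Agent.Helper45.SP.S_SEQ := by
  intro E _ _ _ ν hν N hN
  let _ : NormedAddCommGroup E := AddGroupNorm.toNormedAddCommGroup
    { toFun := ν
      map_zero' := map_zero ν
      add_le' := map_add_le_add ν
      neg' := map_neg_eq_map ν
      eq_zero_of_map_eq_zero' := hν }
  let _ : NormedSpace ℝ E :=
    { norm_smul_le := fun a x => (map_smul_eq_mul ν a x).le }
  exact seq_normed N hN

end Pool.Agent.Helper97.SP
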