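import Pool.Agent.Helper97.SP.BNATa
import Pool.Agent.Helper95.Lin.Basics

/-! Packet BNAT, part 2: invariance of the Bochner field. -/

open Complex Metric Set Filter Topology MeasureTheory
open scoped ContDiff ComplexConjugate ComplexOrder

namespace Pool.Agent.Helper97.SP

open Pool.Agent.Helper95.Lin Pool.Agent.Helper10.SP

variable {b p n : ℕ}

theorem cd_mul' (l : Fin n) {f g : Cn n → ℂ} {x : Cn n} (hf : DifferentiableAt ℝ f x)
    (hg : DifferentiableAt ℝ g x) :
    cd l (fun y => f y * g y) x = f x * cd l g x + g x * cd l f x := by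
  unfold cd
  rw [fderiv_fun_mul hf hg]
  simp only [add_apply, smul_apply, smul_eq_mul]
  ring

theorem cd_const_mul' (l : Fin n) (c : ℂ) {g : Cn n → ℂ} {x : Cn n}
    (hg : DifferentiableAt ℝ g x) : cd l (fun y => c * g y) x = c * cd l g x := by
  rw [cd_mul' l (differentiableAt_const c) hg]
  have : cd l (fun _ : Cn n => c) x = 0 := by
    unfold cd
    simp
  rw [this, mul_zero, add_zero]

theorem cd_sum' {ι : Type*} (l : Fin n) (s : Finset ι) (f : ι → Cn n → ℂ) {x : Cn n}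
    (h : ∀ i ∈ s, DifferentiableAt ℝ (f i) x) :
    cd l (fun y => ∑ i ∈ s, f i y) x = ∑ i ∈ s, cd l (f i) x := by
  unfold cd
  rw [fderiv_fun_sum h]
  simp only [sum_apply]
  rw [Finset.mul_sum, ← Finset.sum_sub_distrib]

theorem cd_prod' {ι : Type*} [DecidableEq ι] (l : Fin n) (s : Finset ι) (f : ι → Cn n → ℂ)
    {x : Cn n} (h : ∀ i ∈ s, DifferentiableAt ℝ (f i) x) :
    cd l (fun y => ∏ i ∈ s, f i y) x = ∑ i ∈ s, (∏ j ∈ s.erase i, f j x) * cd l (f i) x := by
  unfold cd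
  rw [fderiv_finsetProd h]
  simp only [sum_apply, smul_apply, smul_eq_mul]
  rw [Finset.mul_sum, ← Finset.sum_sub_distrib]
  refine Finset.sum_congr rfl (fun i _ => ?_)
  ring

theorem cd_holo (l : Fin n) {f : Cn n → ℂ} {x : Cn n} (hf : DifferentiableAt ℂ f x) :
    cd l f x = 2 * fderiv ℂ f x (Pi.single l 1) := by
  have h1 : fderiv ℝ f x = (fderiv ℂ f x).restrictScalars ℝ :=
    (hf.hasFDerivAt.restrictScalars ℝ).fderiv
  have h2 : (Pi.single l I : Cn n) = I • (Pi.single l 1 : Cn n) := by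
    ext i
    by_cases h : i = l
    · subst h; simp
    · simp [h]
  unfold cd
  rw [h1, h2]
  simp only [ContinuousLinearMap.coe_restrictScalars', map_smul, smul_eq_mul]
  linear_combination (-(fderiv ℂ f x (Pi.single l 1))) * Complex.I_sq

/-- entries of the Jacobian are holomorphic. -/
theorem G_holo {U : Set (Cn b)} (hU : IsOpen U) {g : Cn b → Cn b} (hg : DifferentiableOn ℂ g U)
    (q j : Fin b) : DifferentiableOn ℂ (fun y => fderiv ℂ g y (Pi.single j 1) q) U := by
  have h1 := (holo_fderiv hU hg).clm_apply (differentiableOn_const (Pi.single j (1 : ℂ) : Cn b))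
  exact differentiableOn_pi.1 h1 q

theorem cd_G_symm {U : Set (Cn b)} (hU : IsOpen U) {g : Cn b → Cn b}
    (hg : DifferentiableOn ℂ g U) {z : Cn b} (hz : z ∈ U) (q i j : Fin b) :
    cd i (fun y => fderiv ℂ g y (Pi.single j 1) q) z =
      cd j (fun y => fderiv ℂ g y (Pi.single i 1) q) z := by
  rw [cd_holo i ((G_holo hU hg q j).differentiableAt (hU.mem_nhds hz)),
    cd_holo j ((G_holo hU hg q i).differentiableAt (hU.mem_nhds hz))]
  have hsym : IsSymmSndFDerivAt ℂ g z := by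
    have h1 : ContDiffAt ℂ 2 g z := by
      exact_mod_cast (holo_contDiffOn_nat hU 2 hg).contDiffAt (hU.mem_nhds hz)
    apply h1.isSymmSndFDerivAt
    simp
  have hd : DifferentiableAt ℂ (fderiv ℂ g) z :=
    (holo_fderiv hU hg).differentiableAt (hU.mem_nhds hz)
  have h2 : ∀ v w : Cn b, fderiv ℂ (fun y => fderiv ℂ g y v q) z w =
      (fderiv ℂ (fderiv ℂ g) z w) v q := by
    intro v w
    have h3 : HasFDerivAt (fun y => fderiv ℂ g y v)
        ((fderiv ℂ (fderiv ℂ g) z).flip v) z := by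
      have := hd.hasFDerivAt.clm_apply (hasFDerivAt_const v z)
      simpa using this
    have h4 := (hasFDerivAt_pi'.1 h3) q
    rw [h4.fderiv]
    rfl
  rw [h2, h2, hsym.eq]

theorem holo_prod {ι : Type*} {U : Set (Cn b)} (hU : IsOpen U) (s : Finset ι)
    (f : ι → Cn b → ℂ) (h : ∀ i ∈ s, DifferentiableOn ℂ (f i) U) :
    DifferentiableOn ℂ (fun y => ∏ i ∈ s, f i y) U := by
  classical
  intro x hx
  exact (HasFDerivAt.finsetProd fun i hi =>
    ((h i hi).differentiableAt (hU.mem_nhds hx)).hasFDerivAt).differentiableAt.differentiableWithinAt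

theorem holo_det {m : ℕ} {U : Set (Cn b)} (hU : IsOpen U) (M : Cn b → Matrix (Fin m) (Fin m) ℂ)
    (h : ∀ i j, DifferentiableOn ℂ (fun y => M y i j) U) :
    DifferentiableOn ℂ (fun y => (M y).det) U := by
  have e : (fun y => (M y).det) = fun y => ∑ σ : Equiv.Perm (Fin m),
      ((Equiv.Perm.sign σ : ℤ) : ℂ) * ∏ i, M y (σ i) i := by
    funext y
    rw [Matrix.det_apply']
  rw [e]
  apply DifferentiableOn.fun_sum
  intro σ _
  apply DifferentiableOn.const_mul
  exact holo_prod hU _ _ (fun i _ => h _ _)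

theorem det_eq (D : Cn b →L[ℂ] Cn b) :
    D.det = (Matrix.of fun q j => D (Pi.single j 1) q).det := by
  have h1 : D.det = LinearMap.det (D : Cn b →ₗ[ℂ] Cn b) := rfl
  rw [h1, ← LinearMap.det_toMatrix']
  congr 1

theorem holo_detD {U : Set (Cn b)} (hU : IsOpen U) {g : Cn b → Cn b}
    (hg : DifferentiableOn ℂ g U) : DifferentiableOn ℂ (fun y => (fderiv ℂ g y).det) U := by
  have e : (fun y => (fderiv ℂ g y).det) = fun y =>
      (Matrix.of fun q j => fderiv ℂ g y (Pi.single j 1) q).det := by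
    funext y
    exact det_eq _
  rw [e]
  exact holo_det hU _ (fun i j => G_holo hU hg i j)

theorem sg_holo {U : Set (Cn b)} (hU : IsOpen U) {V : Fin (p + 1) → Cn b → Cn b}
    (hV : ∀ k, DifferentiableOn ℂ (V k) U) (J : Fin (p + 1) → Fin b) :
    DifferentiableOn ℂ (fun y => sg V y J) U := by
  unfold sg
  exact holo_det hU _ (fun i j => differentiableOn_pi.1 (hV i) (J j))

/-- transformation of the Levi matrix. -/
theorem LM_trans (hWIRT : S_WIRT) (hWCH : S_WCH) {U U' : Set (Cn b)} (hU : IsOpen U)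
    (hU' : IsOpen U') {Φ : Cn b → ℝ} (hΦ : ContDiffOn ℝ ∞ Φ (U ∪ U')) {t : Tri b}
    (ht : t.HolOn U) (hmap : MapsTo t.g U U') (hpot : ∀ z ∈ U, PotR Φ Φ t z) {z : Cn b}
    (hz : z ∈ U) (j k : Fin b) :
    LM Φ z j k = ∑ q, ∑ r, fderiv ℂ t.g z (Pi.single j 1) q *
      conj (fderiv ℂ t.g z (Pi.single k 1) r) * LM Φ (t.g z) q r := by
  have hg : DifferentiableOn ℂ t.g U := ht.1
  obtain ⟨hW1, hW2⟩ := hWCH
  have hΦ' : ContDiffOn ℝ ∞ Φ U' := hΦ.mono subset_union_right
  have hcomp := (hW1 U' U hU' hU t.g hg hmap).2 Φ hΦ' z hz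
  rw [← hcomp.2 j k]
  set L1 : Cn b → ℝ := fun y => Real.log (‖(fderiv ℂ t.g y).det‖ ^ 2) with hL1
  set L2 : Cn b → ℝ := fun y => Real.log (‖t.a y‖ ^ 2) with hL2
  obtain ⟨hs1, hz1⟩ := hW2 U hU (fun y => (fderiv ℂ t.g y).det) (holo_detD hU hg)
    (fun x hx => (hpot x hx).2.1)
  obtain ⟨hs2, hz2⟩ := hW2 U hU t.a ht.2.1 (fun x hx => (hpot x hx).1)
  have hLM1 : LM L1 z j k = 0 := by
    have := (hz1 z hz).2.1
    rw [this]; rfl
  have hLM2 : LM L2 z j k = 0 := by
    have := (hz2 z hz).2.1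
    rw [this]; rfl
  -- additivity
  have hadd : ∀ f₁ f₂ : Cn b → ℝ, ContDiffOn ℝ ∞ f₁ U → ContDiffOn ℝ ∞ f₂ U →
      LM (fun y => f₁ y + f₂ y) z j k = LM f₁ z j k + LM f₂ z j k := by
    intro f₁ f₂ h₁ h₂
    have hc : ∀ f : Cn b → ℝ, ContDiffOn ℝ ∞ f U → ContDiffOn ℝ ∞ (fun y => (f y : ℂ)) U :=
      fun f hf => Complex.ofRealCLM.contDiff.comp_contDiffOn hf
    obtain ⟨w1, w2, -, -, -, -⟩ := hWIRT U hU (fun y => (f₁ y : ℂ)) (fun y => (f₂ y : ℂ))
      (hc f₁ h₁) (hc f₂ h₂)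
    obtain ⟨w1', -, -, -, -, -⟩ := hWIRT U hU (fun y => (f₂ y : ℂ)) (fun y => (f₁ y : ℂ))
      (hc f₂ h₂) (hc f₁ h₁)
    have e1 : ∀ y ∈ U, cdb k (fun y => ((f₁ y + f₂ y : ℝ) : ℂ)) y =
        cdb k (fun y => (f₁ y : ℂ)) y + cdb k (fun y => (f₂ y : ℂ)) y := by
      intro y hy
      have := (w2 k y hy).2
      simp only [ofReal_add]
      exact this
    have e2 : cd j (cdb k (fun y => ((f₁ y + f₂ y : ℝ) : ℂ))) z =
        cd j (fun y => cdb k (fun y => (f₁ y : ℂ)) y + cdb k (fun y => (f₂ y : ℂ)) y) z := by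
      unfold cd
      have : cdb k (fun y => ((f₁ y + f₂ y : ℝ) : ℂ)) =ᶠ[𝓝 z]
          fun y => cdb k (fun y => (f₁ y : ℂ)) y + cdb k (fun y => (f₂ y : ℂ)) y := by
        filter_upwards [hU.mem_nhds hz] with y hy
        exact e1 y hy
      rw [this.fderiv_eq]
    obtain ⟨-, w3, -, -, -, -⟩ := hWIRT U hU (cdb k (fun y => (f₁ y : ℂ)))
      (cdb k (fun y => (f₂ y : ℂ))) (w1 k).2 (w1' k).2
    have e3 := (w3 j z hz).1
    unfold LM
    simp only [Matrix.of_apply]
    rw [e2, e3]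
  have hΦg : ContDiffOn ℝ ∞ (Φ ∘ t.g) U :=
    hΦ'.comp (holo_contDiffOn_real hU hg) hmap
  have e4 : LM Φ z j k = LM (fun y => ((fun y => (Φ ∘ t.g) y + L1 y) y) + L2 y) z j k := by
    unfold LM
    simp only [Matrix.of_apply]
    have h1 : ∀ y ∈ U, cdb k (fun y => (Φ y : ℂ)) y =
        cdb k (fun y => (((Φ ∘ t.g) y + L1 y + L2 y : ℝ) : ℂ)) y := by
      intro y hy
      unfold cdb
      have : (fun y => (Φ y : ℂ)) =ᶠ[𝓝 y] fun y => (((Φ ∘ t.g) y + L1 y + L2 y : ℝ) : ℂ) := by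
        filter_upwards [hU.mem_nhds hy] with x hx
        rw [(hpot x hx).2.2]
        rfl
      rw [this.fderiv_eq]
    unfold cd
    have : cdb k (fun y => (Φ y : ℂ)) =ᶠ[𝓝 z]
        cdb k (fun y => (((Φ ∘ t.g) y + L1 y + L2 y : ℝ) : ℂ)) := by
      filter_upwards [hU.mem_nhds hz] with y hy
      exact h1 y hy
    rw [this.fderiv_eq]
  rw [e4, hadd _ _ (hΦg.add hs1) hs2, hadd _ _ hΦg hs1, hLM1, hLM2, add_zero, add_zero]

theorem pull (T c : ℂ) (g : Fin b → ℂ) (K : Fin b → (Fin p → Fin b) → ℂ) :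
    (T * ∑ i, g i * ∑ J : Fin p → Fin b, K i J) * c = ∑ i, ∑ J, T * (g i * K i J) * c := by
  rw [Finset.mul_sum, Finset.sum_mul]
  refine Finset.sum_congr rfl (fun i _ => ?_)
  rw [Finset.mul_sum, Finset.mul_sum, Finset.sum_mul]

theorem bnat (hWIRT : S_WIRT) (hWCH : S_WCH) (hPIO : S_PIO) : S_BNAT := by
  intro b p U U' Φ μ u V t A hU hU' hΦ hμ hu hμ0 hV ht hmap hpot hmu hA hut hDV z hz
  have hg : DifferentiableOn ℂ t.g U := ht.1
  have hUU : IsOpen (U ∪ U') := hU.union hU'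
  set W : Cn b → ℝ := fun y => μ y * Real.exp (-2 * u y) with hW
  have hWs : ContDiffOn ℝ ∞ W (U ∪ U') := hμ.mul ((contDiffOn_const.mul hu).exp)
  have hWc : ContDiffOn ℝ ∞ (fun y => (W y : ℂ)) (U ∪ U') :=
    Complex.ofRealCLM.contDiff.comp_contDiffOn hWs
  have hsgs : ∀ J, ContDiffOn ℝ ∞ (fun y => sg V y J) (U ∪ U') := fun J =>
    holo_contDiffOn_real hUU (sg_holo hUU hV J)
  have hWsg : ∀ J, ContDiffOn ℝ ∞ (fun y => (W y : ℂ) * sg V y J) (U ∪ U') := fun J =>
    hWc.mul (hsgs J)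
  have hWpos : ∀ y ∈ U ∪ U', 0 < W y := fun y hy => mul_pos (hμ0 y hy) (Real.exp_pos _)
  have hA0 : (0 : ℝ) < |A.det| := abs_pos.2 hA
  have hAc : ((A.det : ℝ) : ℂ) ≠ 0 := by exact_mod_cast hA
  have hexp : ∀ y ∈ U, Real.exp (-2 * u (t.g y)) = Real.exp (-2 * u y) * A.det ^ 2 := by
    intro y hy
    have h1 : -2 * u (t.g y) = -2 * u y + (Real.log |A.det| + Real.log |A.det|) := by
      have := hut y hy
      linarith
    rw [h1, Real.exp_add, Real.exp_add, Real.exp_log hA0, ← sq, sq_abs]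
  have hWrel : ∀ y ∈ U, W y * A.det ^ 2 = W (t.g y) * ‖(fderiv ℂ t.g y).det‖ ^ 2 := by
    intro y hy
    simp only [hW]
    rw [hexp y hy, hmu y hy]
    ring
  -- the matrix entries
  set G : Cn b → Fin b → Fin b → ℂ := fun y q j => fderiv ℂ t.g y (Pi.single j 1) q with hG
  have hGh : ∀ q j, DifferentiableOn ℂ (fun y => G y q j) U := fun q j => G_holo hU hg q j
  have hGs : ∀ q j, ContDiffOn ℝ ∞ (fun y => G y q j) U := fun q j =>
    holo_contDiffOn_real hU (hGh q j)
  have hGGs : ∀ Q J : Fin p → Fin b, ContDiffOn ℝ ∞ (fun y => GG (G y) Q J) U := by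
    intro Q J
    unfold GG
    exact contDiffOn_prod (fun s _ => hGs (Q s) (J s))
  have hne : (∞ : WithTop ℕ∞) ≠ 0 := by simp
  -- F2
  have F2 : ∀ Q : Fin p → Fin b, ∑ J : Fin p → Fin b, GG (G z) Q J * dsg W V z J =
      ((A.det : ℝ) : ℂ) * dsg W V (t.g z) Q := by
    intro Q
    set Y : Cn b → Cn b := fun w r => ((A.det : ℝ) : ℂ)⁻¹ * ((W w : ℂ) * sg V w (Fin.cons r Q))
      with hY
    set Z : Cn b → Cn b := fun y i => ∑ J : Fin p → Fin b,
      GG (G y) Q J * ((W y : ℂ) * sg V y (Fin.cons i J)) with hZ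
    have hYs : ContDiffOn ℝ ∞ Y U' := by
      rw [contDiffOn_pi]
      intro r
      exact contDiffOn_const.mul ((hWsg _).mono subset_union_right)
    have hZs : ContDiffOn ℝ ∞ Z U := by
      rw [contDiffOn_pi]
      intro i
      exact ContDiffOn.sum (fun J _ => (hGGs Q J).mul ((hWsg _).mono subset_union_left))
    have hrel : ∀ x ∈ U, fderiv ℂ t.g x (Z x) =
        ((‖(fderiv ℂ t.g x).det‖ ^ 2 : ℝ) : ℂ) • Y (t.g x) := by
      intro x hx
      ext r
      have h1 : fderiv ℂ t.g x (Z x) r = ∑ i, G x r i * Z x i := by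
        conv_lhs => rw [cn_eq_sum (Z x)]
        rw [map_sum, Finset.sum_apply]
        refine Finset.sum_congr rfl (fun i _ => ?_)
        rw [map_smul, Pi.smul_apply, smul_eq_mul]
        simp only [hG]
        ring
      have h2 : ∑ i, G x r i * Z x i = (W x : ℂ) * (((A.det : ℝ) : ℂ) *
          sg V (t.g x) (Fin.cons r Q)) := by
        rw [← sgF1' V x (t.g x) (fderiv ℂ t.g x) A (hDV x hx) r Q, Finset.mul_sum]
        refine Finset.sum_congr rfl (fun i _ => ?_)
        simp only [hZ]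
        rw [Finset.mul_sum, Finset.mul_sum, Finset.mul_sum]
        refine Finset.sum_congr rfl (fun J _ => ?_)
        simp only [hG]
        ring
      rw [h1, h2, Pi.smul_apply, smul_eq_mul]
      simp only [hY]
      have h3 : (W x : ℂ) * ((A.det : ℝ) : ℂ) ^ 2 =
          (W (t.g x) : ℂ) * ((‖(fderiv ℂ t.g x).det‖ ^ 2 : ℝ) : ℂ) := by
        exact_mod_cast congrArg (fun r : ℝ => (r : ℂ)) (hWrel x hx)
      have h4 : (W x : ℂ) * ((A.det : ℝ) : ℂ) = ((A.det : ℝ) : ℂ)⁻¹ *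
          ((W (t.g x) : ℂ) * ((‖(fderiv ℂ t.g x).det‖ ^ 2 : ℝ) : ℂ)) := by
        rw [← h3]
        field_simp
      calc (W x : ℂ) * (((A.det : ℝ) : ℂ) * sg V (t.g x) (Fin.cons r Q))
          = ((W x : ℂ) * ((A.det : ℝ) : ℂ)) * sg V (t.g x) (Fin.cons r Q) := by ring
        _ = _ := by rw [h4]; ring
    have hpio := hPIO U U' t.g hU hU' hg hmap (fun x hx => (hpot x hx).2.1) Y Z hYs hZs hrel z hz
    have hgz : t.g z ∈ U' := hmap hz
    have hgz' : t.g z ∈ U ∪ U' := Or.inr hgz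
    have hz' : z ∈ U ∪ U' := Or.inl hz
    have hda : ∀ x ∈ U ∪ U', ∀ J, DifferentiableAt ℝ (fun y => (W y : ℂ) * sg V y J) x :=
      fun x hx J => ((hWsg J).contDiffAt (hUU.mem_nhds hx)).differentiableAt hne
    have hdG : ∀ J : Fin p → Fin b, DifferentiableAt ℝ (fun y => GG (G y) Q J) z :=
      fun J => ((hGGs Q J).contDiffAt (hU.mem_nhds hz)).differentiableAt hne
    have hWz : (W z : ℂ) ≠ 0 := by exact_mod_cast (hWpos z hz').ne'
    have hWgz : (W (t.g z) : ℂ) ≠ 0 := by exact_mod_cast (hWpos _ hgz').ne'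
    have hdsg : ∀ x ∈ U ∪ U', ∀ J : Fin p → Fin b,
        ∑ i, cd i (fun y => (W y : ℂ) * sg V y (Fin.cons i J)) x = (W x : ℂ) * dsg W V x J := by
      intro x hx J
      have : (W x : ℂ) ≠ 0 := by exact_mod_cast (hWpos x hx).ne'
      unfold dsg
      rw [← mul_assoc, mul_inv_cancel₀ this, one_mul]
    have hR : ∑ k, cd k (fun y => Y y k) (t.g z) =
        ((A.det : ℝ) : ℂ)⁻¹ * ((W (t.g z) : ℂ) * dsg W V (t.g z) Q) := by
      rw [← hdsg _ hgz' Q, Finset.mul_sum]
      refine Finset.sum_congr rfl (fun k _ => ?_)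
      simp only [hY]
      exact cd_const_mul' k _ (hda _ hgz' _)
    have hL : ∑ k, cd k (fun y => Z y k) z =
        (W z : ℂ) * ∑ J : Fin p → Fin b, GG (G z) Q J * dsg W V z J := by
      have h1 : ∀ k, cd k (fun y => Z y k) z = ∑ J : Fin p → Fin b,
          (GG (G z) Q J * cd k (fun y => (W y : ℂ) * sg V y (Fin.cons k J)) z +
            ((W z : ℂ) * sg V z (Fin.cons k J)) * cd k (fun y => GG (G y) Q J) z) := by
        intro k
        simp only [hZ]
        rw [cd_sum' k Finset.univ (fun J y => GG (G y) Q J * ((W y : ℂ) * sg V y (Fin.cons k J)))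
          (fun J _ => (hdG J).mul (hda z hz' _))]
        refine Finset.sum_congr rfl (fun J _ => ?_)
        exact cd_mul' k (hdG J) (hda z hz' _)
      rw [Finset.sum_congr rfl (fun k _ => h1 k)]
      simp only [Finset.sum_add_distrib]
      have h2 : ∑ k, ∑ J : Fin p → Fin b,
          GG (G z) Q J * cd k (fun y => (W y : ℂ) * sg V y (Fin.cons k J)) z =
          (W z : ℂ) * ∑ J : Fin p → Fin b, GG (G z) Q J * dsg W V z J := by
        rw [Finset.sum_comm, Finset.mul_sum]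
        refine Finset.sum_congr rfl (fun J _ => ?_)
        rw [← Finset.mul_sum, hdsg z hz' J]
        ring
      have h3 : ∑ k, ∑ J : Fin p → Fin b,
          ((W z : ℂ) * sg V z (Fin.cons k J)) * cd k (fun y => GG (G y) Q J) z = 0 := by
        have h4 : ∀ (k : Fin b) (J : Fin p → Fin b), cd k (fun y => GG (G y) Q J) z =
            ∑ s, (∏ s' ∈ Finset.univ.erase s, G z (Q s') (J s')) *
              cd k (fun y => G y (Q s) (J s)) z := by
          intro k J
          unfold GG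
          exact cd_prod' k Finset.univ (fun s y => G y (Q s) (J s)) (fun s _ =>
            ((hGs _ _).contDiffAt (hU.mem_nhds hz)).differentiableAt hne)
        have h5 : ∑ k, ∑ J : Fin p → Fin b,
            ((W z : ℂ) * sg V z (Fin.cons k J)) * cd k (fun y => GG (G y) Q J) z =
            ∑ s, ∑ k, ∑ J : Fin p → Fin b, cd k (fun y => G y (Q s) (J s)) z *
              ((W z : ℂ) * ∏ s' ∈ Finset.univ.erase s, G z (Q s') (J s')) *
                sg V z (Fin.cons k J) := by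
          have h6 : ∀ (k : Fin b) (J : Fin p → Fin b),
              ((W z : ℂ) * sg V z (Fin.cons k J)) * cd k (fun y => GG (G y) Q J) z =
              ∑ s, cd k (fun y => G y (Q s) (J s)) z *
              ((W z : ℂ) * ∏ s' ∈ Finset.univ.erase s, G z (Q s') (J s')) *
                sg V z (Fin.cons k J) := by
            intro k J
            rw [h4, Finset.mul_sum]
            refine Finset.sum_congr rfl (fun s _ => ?_)
            ring
          rw [Finset.sum_congr rfl (fun k _ => Finset.sum_congr rfl (fun J _ => h6 k J))]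
          rw [Finset.sum_congr rfl (fun k _ => Finset.sum_comm), Finset.sum_comm]
        rw [h5]
        apply Finset.sum_eq_zero
        intro s _
        have h7 := antisym_sum V z s (fun i j => cd i (fun y => G y (Q s) j) z)
          (fun i j => cd_G_symm hU hg hz (Q s) i j)
          (fun J => (W z : ℂ) * ∏ s' ∈ Finset.univ.erase s, G z (Q s') (J s')) (by
            intro J i
            congr 1
            refine Finset.prod_congr rfl (fun s' hs' => ?_)
            rw [Function.update_of_ne (Finset.ne_of_mem_erase hs')])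
        exact h7
      rw [h2, h3, add_zero]
    rw [hL, hR] at hpio
    have h3 : (W z : ℂ) * ((A.det : ℝ) : ℂ) ^ 2 =
        (W (t.g z) : ℂ) * ((‖(fderiv ℂ t.g z).det‖ ^ 2 : ℝ) : ℂ) := by
      exact_mod_cast congrArg (fun r : ℝ => (r : ℂ)) (hWrel z hz)
    apply mul_left_cancel₀ hWz
    rw [hpio]
    calc ((‖(fderiv ℂ t.g z).det‖ ^ 2 : ℝ) : ℂ) * (((A.det : ℝ) : ℂ)⁻¹ *
        ((W (t.g z) : ℂ) * dsg W V (t.g z) Q))
        = ((W (t.g z) : ℂ) * ((‖(fderiv ℂ t.g z).det‖ ^ 2 : ℝ) : ℂ)) *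
          (((A.det : ℝ) : ℂ)⁻¹ * dsg W V (t.g z) Q) := by ring
      _ = _ := by
        rw [← h3]
        field_simp
  -- assembly
  have hLM := LM_trans hWIRT hWCH hU hU' hΦ ht hmap hpot hz
  have hF1 := sgF1' V z (t.g z) (fderiv ℂ t.g z) A (hDV z hz)
  ext r
  have h1 : fderiv ℂ t.g z (YB Φ μ u V z) r = ∑ i, G z r i * YB Φ μ u V z i := by
    conv_lhs => rw [cn_eq_sum (YB Φ μ u V z)]
    rw [map_sum, Finset.sum_apply]
    refine Finset.sum_congr rfl (fun i _ => ?_)
    rw [map_smul, Pi.smul_apply, smul_eq_mul]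
    simp only [hG]
    ring
  rw [h1]
  unfold YB tf
  have h2 : ∀ J L : Fin p → Fin b, thp (LM Φ z) J L = ∑ P : Fin p → Fin b, ∑ Q : Fin p → Fin b,
      GG (G z) P J * conj (GG (G z) Q L) * thp (LM Φ (t.g z)) P Q :=
    fun J L => thp_trans (G z) (LM Φ z) (LM Φ (t.g z)) (fun j k => hLM j k) J L
  have h3 : (Real.exp (-2 * u (t.g z)) : ℂ) = (Real.exp (-2 * u z) : ℂ) * ((A.det : ℝ) : ℂ) ^ 2 := by
    exact_mod_cast congrArg (fun r : ℝ => (r : ℂ)) (hexp z hz)
  have h4 : ∑ i, G z r i * ((Real.exp (-2 * u z) : ℂ) * ∑ J : Fin p → Fin b,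
      ∑ L : Fin p → Fin b, thp (LM Φ z) J L * sg V z (Fin.cons i J) * conj (dsg W V z L)) =
      (Real.exp (-2 * u z) : ℂ) * ∑ P : Fin p → Fin b, ∑ Q : Fin p → Fin b,
        thp (LM Φ (t.g z)) P Q * (∑ i, G z r i * ∑ J : Fin p → Fin b,
          GG (G z) P J * sg V z (Fin.cons i J)) *
          conj (∑ L : Fin p → Fin b, GG (G z) Q L * dsg W V z L) := by
    have e1 : ∀ i, G z r i * ((Real.exp (-2 * u z) : ℂ) * ∑ J : Fin p → Fin b,
        ∑ L : Fin p → Fin b, thp (LM Φ z) J L * sg V z (Fin.cons i J) * conj (dsg W V z L)) =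
        (Real.exp (-2 * u z) : ℂ) * ∑ P : Fin p → Fin b, ∑ Q : Fin p → Fin b,
          ∑ J : Fin p → Fin b, ∑ L : Fin p → Fin b, thp (LM Φ (t.g z)) P Q *
            (G z r i * (GG (G z) P J * sg V z (Fin.cons i J))) *
            (conj (GG (G z) Q L) * conj (dsg W V z L)) := by
      intro i
      rw [mul_left_comm]
      congr 1
      rw [Finset.mul_sum]
      have e2 : ∀ J : Fin p → Fin b, G z r i * ∑ L : Fin p → Fin b, thp (LM Φ z) J L *
          sg V z (Fin.cons i J) * conj (dsg W V z L) =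
          ∑ L : Fin p → Fin b, ∑ P : Fin p → Fin b, ∑ Q : Fin p → Fin b,
            thp (LM Φ (t.g z)) P Q *
            (G z r i * (GG (G z) P J * sg V z (Fin.cons i J))) *
            (conj (GG (G z) Q L) * conj (dsg W V z L)) := by
        intro J
        rw [Finset.mul_sum]
        refine Finset.sum_congr rfl (fun L _ => ?_)
        rw [h2, Finset.sum_mul, Finset.sum_mul, Finset.mul_sum]
        refine Finset.sum_congr rfl (fun P _ => ?_)
        rw [Finset.sum_mul, Finset.sum_mul, Finset.mul_sum]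
        refine Finset.sum_congr rfl (fun Q _ => ?_)
        ring
      rw [Finset.sum_congr rfl (fun J _ => e2 J)]
      -- reorder J L P Q to P Q J L
      have e3 : ∀ (f : (Fin p → Fin b) → (Fin p → Fin b) → (Fin p → Fin b) → (Fin p → Fin b) → ℂ),
          ∑ J, ∑ L, ∑ P, ∑ Q, f J L P Q = ∑ P, ∑ Q, ∑ J, ∑ L, f J L P Q := by
        intro f
        calc ∑ J, ∑ L, ∑ P, ∑ Q, f J L P Q = ∑ J, ∑ P, ∑ L, ∑ Q, f J L P Q :=
              Finset.sum_congr rfl (fun J _ => Finset.sum_comm)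
          _ = ∑ P, ∑ J, ∑ L, ∑ Q, f J L P Q := Finset.sum_comm
          _ = ∑ P, ∑ J, ∑ Q, ∑ L, f J L P Q :=
              Finset.sum_congr rfl (fun P _ => Finset.sum_congr rfl (fun J _ => Finset.sum_comm))
          _ = _ := Finset.sum_congr rfl (fun P _ => Finset.sum_comm)
      rw [e3]
    rw [Finset.sum_congr rfl (fun i _ => e1 i), ← Finset.mul_sum]
    congr 1
    rw [Finset.sum_comm]
    refine Finset.sum_congr rfl (fun P _ => ?_)
    rw [Finset.sum_comm]
    refine Finset.sum_congr rfl (fun Q _ => ?_)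
    rw [pull]
    refine Finset.sum_congr rfl (fun i _ => Finset.sum_congr rfl (fun J _ => ?_))
    rw [map_sum, Finset.mul_sum]
    refine Finset.sum_congr rfl (fun L _ => ?_)
    rw [map_mul]
  rw [h4, h3, mul_assoc]
  congr 1
  rw [Finset.mul_sum]
  refine Finset.sum_congr rfl (fun P _ => ?_)
  rw [Finset.mul_sum]
  refine Finset.sum_congr rfl (fun Q _ => ?_)
  rw [F2 Q]
  have h5 : ∑ i, G z r i * ∑ J : Fin p → Fin b, GG (G z) P J * sg V z (Fin.cons i J) =
      ((A.det : ℝ) : ℂ) * sg V (t.g z) (Fin.cons r P) := hF1 r P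
  rw [h5, map_mul, conj_ofReal]
  ring

end Pool.Agent.Helper97.SP
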