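import Pool.Agent.Helper10.SP.GoalsK
import Pool.Agent.Helper35.SP.PAX

/-! # Project SP, packet FCON: holomorphic sections are constant on the fibres -/

open Complex Metric Set Filter Topology MeasureTheory
open scoped ContDiff ComplexConjugate ComplexOrder Manifold

namespace Pool.Agent.Helper97.SP

open Pool.Agent.Helper95.Lin Pool.Agent.Helper16.Abund Pool.Agent.Helper92.Orb
open Pool.Agent.Helper10.SP Pool.Agent.Helper35.SP

universe u

/-- An entire function with two real-independent periods is constant. -/
theorem two_periods {f : ℂ → ℂ} (hf : Differentiable ℂ f) (q : Fin 2 → ℂ)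
    (hq : LinearIndependent ℝ q) (hper : ∀ j w, f (w + q j) = f w) (w w' : ℂ) : f w = f w' := by
  let B := basisOfLinearIndependentOfCardEqFinrank hq (by simp [Complex.finrank_real_complex])
  have hB : ∀ j, B j = q j := fun j => by
    simp [B, coe_basisOfLinearIndependentOfCardEqFinrank]
  have hspan : ∀ v ∈ Submodule.span ℤ (range B), ∀ w, f (w + v) = f w := by
    intro v hv
    refine Submodule.span_induction (p := fun v _ => ∀ w, f (w + v) = f w) ?_ ?_ ?_ ?_ hv
    · rintro _ ⟨j, rfl⟩ w
      rw [hB, hper]
    · intro w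
      rw [add_zero]
    · intro x y _ _ hx hy w
      rw [← add_assoc, hy, hx]
    · intro n x _ hx w
      induction n using Int.induction_on generalizing w with
      | zero => simp
      | succ n ih =>
        rw [add_smul, one_smul, ← add_assoc, hx, ih]
      | pred n ih =>
        have h := ih w
        have h2 : w + (-(n : ℤ)) • x = w + (-(n : ℤ) - 1) • x + x := by
          rw [sub_smul, one_smul]
          ring
        rw [h2, hx] at h
        exact h
  have hbd : Bornology.IsBounded (range f) := by
    have h1 : Bornology.IsBounded (closure (ZSpan.fundamentalDomain B)) :=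
      (ZSpan.fundamentalDomain_isBounded B).closure
    have h2 : IsCompact (closure (ZSpan.fundamentalDomain B)) :=
      Metric.isCompact_of_isClosed_isBounded isClosed_closure h1
    refine (h2.image hf.continuous).isBounded.subset ?_
    rintro _ ⟨w, rfl⟩
    refine ⟨ZSpan.fract B w, subset_closure (ZSpan.fract_mem_fundamentalDomain B w), ?_⟩
    have h3 : ZSpan.fract B w + (ZSpan.floor B w : ℂ) = w := by
      rw [ZSpan.fract_apply]
      ring
    have h4 := hspan _ (ZSpan.floor B w).2 (ZSpan.fract B w)
    rw [h3] at h4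
    exact h4.symm
  exact hf.apply_eq_apply_of_bounded hbd w w'

theorem fcon (hFIBT : S_FIBT) : S_FCON.{u} := by
  intro b N G _ c R Rel P Φ C H hF hD M g hg hgh z hz w w'
  obtain ⟨i, hi⟩ := mem_iUnion.1 hz
  obtain ⟨t₁, t₂, h1, h2, h12, hli⟩ := hFIBT c R P Φ C hF.fol hD i z hi
  have hsub : ball (c i) 2 ⊆ ball (c i) 4 := ball_subset_ball (by norm_num)
  have hsub2 : ball (c i) 2 ⊆ Bd c 2 := subset_iUnion (fun i => ball (c i) 2) i
  -- the period property
  have key : ∀ t : Tri b, Big c P i t → (∀ y ∈ ball (c i) 4, t.g y = y ∧ t.a y = 1) →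
      ∀ w : ℂ, g (pt z (w + t.β z)) = g (pt z w) := by
    intro t ht hid w
    have hP : P (ball (c i) 2) t := hF.fol.mono _ _ _ ht.1 isOpen_ball hsub
    have hh := hF.fol.holo _ _ hP
    have hhol : t.HolOn (ball (c i) 2) := ⟨hh.2.2.1, hh.2.2.2.1, hh.2.2.2.2.1⟩
    have hmaps : MapsTo t.g (ball (c i) 2) (Bd c 2) := by
      intro y hy
      rw [(hid y (hsub hy)).1]
      exact hsub2 hy
    obtain ⟨γ, hγ⟩ := hF.ofP _ _ hP hsub2 hmaps
    have harr : Arr Rel (tubeS (ball (c i) 2)) (TM t) := by
      refine ⟨isOpen_tubeS isOpen_ball, ?_, γ, ?_⟩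
      · intro x hx
        exact (TM_deriv isOpen_ball hhol hx).differentiableAt.differentiableWithinAt
      · intro x hx
        have := hγ (base x) hx (lc x)
        rwa [pt_eta] at this
    have hx : pt z w ∈ tubeS (ball (c i) 2) := by
      change base (pt z w) ∈ ball (c i) 2
      rw [base_pt]
      exact hi
    have hs := hg.2 _ _ harr _ hx
    have hdet : (fderiv ℂ (TM t) (pt z w)).det = 1 := by
      rw [TM_det isOpen_ball hhol hx, base_pt, (hid z (hsub hi)).2, mul_one]
      have he : t.g =ᶠ[𝓝 z] id := by
        filter_upwards [isOpen_ball.mem_nhds (hsub hi)] with y hy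
        exact (hid y hy).1
      rw [he.fderiv_eq, fderiv_id]
      exact LinearMap.det_id
    rw [hdet, one_pow, mul_one, TM_pt, (hid z (hsub hi)).1, (hid z (hsub hi)).2, one_mul] at hs
    exact hs.symm
  have hent : Differentiable ℂ fun w : ℂ => g (pt z w) := by
    intro w
    have hx : pt z w ∈ tubeS (Bd c 2) := by
      change base (pt z w) ∈ Bd c 2
      rw [base_pt]
      exact hz
    have hop : IsOpen (tubeS (Bd c 2)) := isOpen_tubeS (isOpen_iUnion fun _ => isOpen_ball)
    have h1 : DifferentiableAt ℂ g (pt z w) := (hgh _ hx).differentiableAt (hop.mem_nhds hx)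
    have h2 : DifferentiableAt ℂ (fun w : ℂ => pt z w) w := by
      have : (fun w : ℂ => pt z w) = fun w => inc b z + w • ew b := by
        funext w
        exact pt_eq z w
      rw [this]
      fun_prop
    exact h1.comp w h2
  refine two_periods hent ![t₁.β z, t₂.β z] hli ?_ w w'
  intro j w
  fin_cases j
  · exact key t₁ h1 (fun y hy => ⟨(h12 y hy).1, (h12 y hy).2.2.1⟩) w
  · exact key t₂ h2 (fun y hy => ⟨(h12 y hy).2.1, (h12 y hy).2.2.2⟩) w

end Pool.Agent.Helper97.SP
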