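import Pool.Agent.Helper10.SP.GoalsI

/-! Packet BNAT, part 1: algebra. -/

open Complex Metric Set Filter Topology MeasureTheory
open scoped ContDiff ComplexConjugate ComplexOrder

namespace Pool.Agent.Helper97.SP

open Pool.Agent.Helper95.Lin Pool.Agent.Helper10.SP

variable {b p : ℕ}

theorem det_expand {n : ℕ} (c : Fin n → Fin b → ℂ) (v : Fin n → Fin b → ℂ) :
    (Matrix.of fun k l => ∑ i, c l i * v k i).det =
      ∑ I : Fin n → Fin b, (∏ s, c s (I s)) * (Matrix.of fun k l => v k (I l)).det := by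
  have h1 : (Matrix.of fun k l => ∑ i, c l i * v k i).det =
      (Matrix.detRowAlternating : (Fin n → ℂ) [⋀^Fin n]→ₗ[ℂ] ℂ).toMultilinearMap
        (fun l => ∑ i, c l i • fun k => v k i) := by
    rw [← Matrix.det_transpose]
    change Matrix.det _ = Matrix.det _
    congr 1
    ext l k
    simp [Matrix.transpose_apply, Finset.sum_apply]
  rw [h1, MultilinearMap.map_sum]
  refine Finset.sum_congr rfl (fun I _ => ?_)
  rw [MultilinearMap.map_smul_univ, smul_eq_mul]
  congr 1
  rw [← Matrix.det_transpose (Matrix.of fun k l => v k (I l))]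
  rfl

theorem cn_eq_sum (u : Cn b) : u = ∑ i, u i • (Pi.single i 1 : Cn b) := by
  ext j
  simp [Finset.sum_apply, Pi.single_apply]

theorem sgF1 (V : Fin (p + 1) → Cn b → Cn b) (z w : Cn b) (D : Cn b →L[ℂ] Cn b)
    (A : Matrix (Fin (p + 1)) (Fin (p + 1)) ℝ)
    (h : ∀ k, D (V k z) = ∑ l, ((A l k : ℝ) : ℂ) • V l w) (I' : Fin (p + 1) → Fin b) :
    ∑ I : Fin (p + 1) → Fin b, (∏ s, D (Pi.single (I s) 1) (I' s)) * sg V z I =
      ((A.det : ℝ) : ℂ) * sg V w I' := by
  have h1 := det_expand (n := p + 1) (fun s i => D (Pi.single i 1) (I' s)) (fun k i => V k z i)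
  unfold sg
  rw [← h1]
  have h2 : (Matrix.of fun k l => ∑ i, D (Pi.single i 1) (I' l) * V k z i) =
      (A.map (fun x : ℝ => (x : ℂ))).transpose * (Matrix.of fun k l => V k w (I' l)) := by
    ext k l
    rw [Matrix.mul_apply]
    simp only [Matrix.of_apply, Matrix.transpose_apply, Matrix.map_apply]
    have h3 : D (V k z) (I' l) = ∑ i, D (Pi.single i 1) (I' l) * V k z i := by
      conv_lhs => rw [cn_eq_sum (V k z)]
      rw [map_sum, Finset.sum_apply]
      refine Finset.sum_congr rfl (fun i _ => ?_)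
      rw [map_smul, Pi.smul_apply, smul_eq_mul]
      ring
    rw [← h3, h k, Finset.sum_apply]
    refine Finset.sum_congr rfl (fun i _ => ?_)
    rw [Pi.smul_apply, smul_eq_mul]
  rw [h2, Matrix.det_mul, Matrix.det_transpose]
  congr 1
  exact (RingHom.map_det Complex.ofRealHom A).symm

theorem sum_cons {M : Type*} [AddCommMonoid M] (F : (Fin (p + 1) → Fin b) → M) :
    ∑ I, F I = ∑ i, ∑ J : Fin p → Fin b, F (Fin.cons i J) := by
  rw [← (Fin.consEquiv (fun _ : Fin (p + 1) => Fin b)).sum_comp, Fintype.sum_prod_type]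
  rfl

/-- products of entries. -/
noncomputable def GG (G : Fin b → Fin b → ℂ) (Q J : Fin p → Fin b) : ℂ := ∏ s, G (Q s) (J s)

theorem sgF1' (V : Fin (p + 1) → Cn b → Cn b) (z w : Cn b) (D : Cn b →L[ℂ] Cn b)
    (A : Matrix (Fin (p + 1)) (Fin (p + 1)) ℝ)
    (h : ∀ k, D (V k z) = ∑ l, ((A l k : ℝ) : ℂ) • V l w) (r : Fin b) (Q : Fin p → Fin b) :
    ∑ i, D (Pi.single i 1) r * ∑ J : Fin p → Fin b,
      GG (fun q j => D (Pi.single j 1) q) Q J * sg V z (Fin.cons i J) =
      ((A.det : ℝ) : ℂ) * sg V w (Fin.cons r Q) := by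
  rw [← sgF1 V z w D A h (Fin.cons r Q), sum_cons]
  refine Finset.sum_congr rfl (fun i _ => ?_)
  rw [Finset.mul_sum]
  refine Finset.sum_congr rfl (fun J _ => ?_)
  rw [Fin.prod_univ_succ]
  simp only [Fin.cons_zero, Fin.cons_succ, GG]
  ring

theorem sg_swap (V : Fin (p + 1) → Cn b → Cn b) (z : Cn b) (i : Fin b) (J : Fin p → Fin b)
    (s : Fin p) : sg V z (Fin.cons (J s) (Function.update J s i)) = - sg V z (Fin.cons i J) := by
  unfold sg
  have h1 : (Matrix.of fun k l => V k z ((Fin.cons (J s) (Function.update J s i) :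
      Fin (p + 1) → Fin b) l)) =
      (Matrix.of fun k l => V k z ((Fin.cons i J : Fin (p + 1) → Fin b) l)).submatrix id
        (Equiv.swap 0 s.succ) := by
    ext k l
    simp only [Matrix.of_apply, Matrix.submatrix_apply, id]
    congr 1
    refine Fin.cases ?_ (fun l => ?_) l
    · rw [Equiv.swap_apply_left, Fin.cons_zero, Fin.cons_succ]
    · by_cases hl : l = s
      · subst hl
        rw [Equiv.swap_apply_right, Fin.cons_zero, Fin.cons_succ, Function.update_self]
      · rw [Equiv.swap_apply_of_ne_of_ne (Fin.succ_ne_zero l) (fun h => hl (Fin.succ_injective _ h)),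
          Fin.cons_succ, Fin.cons_succ, Function.update_of_ne hl]
  rw [h1, Matrix.det_permute', Equiv.Perm.sign_swap (Fin.succ_ne_zero s).symm]
  simp

/-- the sum of a symmetric times an antisymmetric expression vanishes. -/
theorem antisym_sum (V : Fin (p + 1) → Cn b → Cn b) (z : Cn b) (s : Fin p)
    (H : Fin b → Fin b → ℂ) (hH : ∀ i j, H i j = H j i) (K : (Fin p → Fin b) → ℂ)
    (hK : ∀ J i, K (Function.update J s i) = K J) :
    ∑ i, ∑ J : Fin p → Fin b, H i (J s) * K J * sg V z (Fin.cons i J) = 0 := by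
  set F : Fin b × (Fin p → Fin b) → ℂ := fun x => H x.1 (x.2 s) * K x.2 * sg V z (Fin.cons x.1 x.2)
    with hF
  have hinv : Function.Involutive
      (fun x : Fin b × (Fin p → Fin b) => (x.2 s, Function.update x.2 s x.1)) := by
    rintro ⟨i, J⟩
    simp
  have h1 : ∑ x, F x = ∑ i, ∑ J : Fin p → Fin b, H i (J s) * K J * sg V z (Fin.cons i J) := by
    rw [Fintype.sum_prod_type]
  have h2 : ∑ x, F x = ∑ x, F (hinv.toPerm _ x) := (Equiv.sum_comp _ F).symm
  have h3 : ∀ x, F (hinv.toPerm _ x) = - F x := by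
    rintro ⟨i, J⟩
    simp only [hF, Function.Involutive.coe_toPerm, Function.update_self]
    rw [sg_swap, hK, hH]
    ring
  rw [← h1]
  rw [Finset.sum_congr rfl (fun x _ => h3 x), Finset.sum_neg_distrib] at h2
  have h4 : (2 : ℂ) * ∑ x, F x = 0 := by linear_combination h2
  exact (mul_eq_zero.1 h4).resolve_left two_ne_zero

/-- transformation of the form on tensors. -/
theorem thp_trans (G : Fin b → Fin b → ℂ) (θ θ' : Matrix (Fin b) (Fin b) ℂ)
    (h : ∀ j k, θ j k = ∑ q, ∑ r, G q j * conj (G r k) * θ' q r) (J L : Fin p → Fin b) :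
    thp θ J L = ∑ P : Fin p → Fin b, ∑ Q : Fin p → Fin b,
      GG G P J * conj (GG G Q L) * thp θ' P Q := by
  unfold thp GG
  have h1 : ∏ s, θ (J s) (L s) = ∏ s, ∑ x : Fin b × Fin b,
      G x.1 (J s) * conj (G x.2 (L s)) * θ' x.1 x.2 := by
    refine Finset.prod_congr rfl (fun s _ => ?_)
    rw [h, Fintype.sum_prod_type]
  rw [h1, Finset.prod_univ_sum]
  have h2 : ∑ x ∈ Fintype.piFinset (fun _ : Fin p => (Finset.univ : Finset (Fin b × Fin b))),
      ∏ s, G (x s).1 (J s) * conj (G (x s).2 (L s)) * θ' (x s).1 (x s).2 =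
      ∑ x : Fin p → Fin b × Fin b,
        ∏ s, G (x s).1 (J s) * conj (G (x s).2 (L s)) * θ' (x s).1 (x s).2 := by
    rw [Fintype.piFinset_univ]
  rw [h2, ← (Equiv.arrowProdEquivProdArrow (Fin p) (fun _ => Fin b) (fun _ => Fin b)).symm.sum_comp,
    Fintype.sum_prod_type]
  refine Finset.sum_congr rfl (fun P _ => Finset.sum_congr rfl (fun Q _ => ?_))
  rw [map_prod, ← Finset.prod_mul_distrib, ← Finset.prod_mul_distrib]
  rfl

end Pool.Agent.Helper97.SP
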